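import Mathlib
import Pool.Agent.H10.CedDefs
import Pool.Agent.H10.MWDefs
import Pool.Agent.H10.MWCore

set_option autoImplicit false

namespace Pool.Agent.Results.MP_952ea4_co.NoPolytope
open Pool.Agent.H10.Ced Pool.Agent.H10.MW

/-- no complex containing the Mani-Walkup complex is isomorphic to the boundary complex of a
simplicial 4-polytope -/
theorem result (T Q : Cx) (hT : MWK ⊆ T) (hQ : PolySphere 4 Q) : ¬ Iso Q T := by
  rintro ⟨f, hf, rfl⟩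
  obtain ⟨W, p, -, h1, h2⟩ := hQ
  let g := Function.invFun f
  have gf : ∀ u, g (f u) = u := Function.leftInverse_invFun hf
  have key : ∀ F ∈ tets, ∃ s ∈ Q, (∀ v, v ∈ F ↔ g v ∈ s ∧ f (g v) = v) ∧
      ∃ l : (Fin 4 → ℝ) →ₗ[ℝ] ℝ, ∀ v, v ∈ s ↔ v ∈ W ∧ ∀ u ∈ W, l (p u) ≤ l (p v) := by
    intro F hF
    obtain ⟨s, hs, e⟩ := hT ⟨F, hF, Finset.Subset.rfl⟩
    refine ⟨s, hs, fun v => ?_, ?_⟩
    · rw [← List.mem_toFinset, ← e, Finset.mem_image]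
      exact ⟨by rintro ⟨u, a, rfl⟩; rw [gf]; exact ⟨a, rfl⟩, fun a => ⟨_, a⟩⟩
    · rw [h2] at hs
      rcases hs with rfl | ⟨l, -, hl⟩
      · exact absurd e.symm ((by decide : ∀ F ∈ tets, F.toFinset ≠ ∅) F hF)
      · exact ⟨l, hl⟩
  have vx : ∀ v < 12, g v ∈ W ∧ f (g v) = v := by
    intro v hv
    obtain ⟨F, hF, a⟩ : ∃ F ∈ tets, v ∈ F := by revert v; decide
    obtain ⟨s, -, b, l, c⟩ := key F hF
    exact ⟨((c _).1 ((b v).1 a).1).1, ((b v).1 a).2⟩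
  refine chi_of (fun v => p (g v)) fun i j k m v w hF hv hw => ?_
  obtain ⟨s, hs, b, l, c⟩ := key _ hF
  have nd : [i, j, k, m].Nodup := (by decide : ∀ F ∈ tets, F.Nodup) _ hF
  have mm : ∀ x : Fin 4, g (![i, j, k, m] x) ∈ s ∧ f (g (![i, j, k, m] x)) = ![i, j, k, m] x :=
    fun x => (b _).1 (by fin_cases x <;> simp)
  have eq : ∀ x y, x ∈ s → y ∈ s → l (p x) = l (p y) := fun x y hx hy =>
    le_antisymm (((c y).1 hy).2 x ((c x).1 hx).1) (((c x).1 hx).2 y ((c y).1 hy).1)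
  have lt : ∀ v, v < 12 ∧ v ∉ [i, j, k, m] → l (p (g v)) < l (p (g i)) := fun v hv =>
    not_le.1 fun r => hv.2 ((b v).2 ⟨(c _).2 ⟨(vx v hv.1).1, fun u hu =>
      (((c _).1 (mm 0).1).2 u hu).trans r⟩, (vx v hv.1).2⟩)
  refine face _ _ _ _ _ _ ?_ l (eq _ _ (mm 1).1 (mm 0).1) (eq _ _ (mm 2).1 (mm 0).1)
    (eq _ _ (mm 3).1 (mm 0).1) (lt v hv) (lt w hw)
  have inj : Function.Injective ![i, j, k, m] := List.nodup_ofFn.1 (by simpa using nd)
  convert (h1 s hs).comp_embedding ⟨fun x : Fin 4 => ⟨_, (mm x).1⟩, fun x y e => inj (by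
    rw [← (mm x).2, ← (mm y).2]
    exact congrArg f (congrArg Subtype.val e))⟩ using 1
  funext x
  fin_cases x <;> rfl

end Pool.Agent.Results.MP_952ea4_co.NoPolytope
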